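import Pool.Agent.H.MP_bdfe62_co.A

set_option autoImplicit false

namespace Pool.Agent.H.MP_35c2eb_co

open Finset Pool.Agent.H.MP_bdfe62_co

variable {V W : Type}

lemma cut [Fintype W] [DecidableEq W] (Dd : Finset (W × W)) (h1 : ∀ p ∈ Dd, p.1 ≠ p.2)
    (h2 : ∀ p ∈ Dd, p.swap ∈ Dd) :
    ∃ s : W → Bool, Dd.card ≤ 4 * (Dd.filter fun p => s p.1 = false ∧ s p.2 = true).card := by
  have half : ∀ p ∈ Dd, 2 * (univ.filter fun s : W → Bool => s p.1 ≠ s p.2).card =
      Fintype.card (W → Bool) := by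
    intro p hp
    have e : (univ.filter fun s : W → Bool => s p.1 ≠ s p.2).card =
        (univ.filter fun s : W → Bool => ¬ s p.1 ≠ s p.2).card := by
      refine card_nbij' (fun s => Function.update s p.1 (!s p.1))
        (fun s => Function.update s p.1 (!s p.1)) ?_ ?_ ?_ ?_
      · intro s hs
        have := (mem_filter.1 (mem_coe.1 hs)).2
        refine mem_coe.2 (mem_filter.2 ⟨mem_univ _, ?_⟩)
        simp only [Function.update_self, Function.update_of_ne (h1 p hp).symm]
        revert this; cases s p.1 <;> cases s p.2 <;> simp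
      · intro s hs
        have := (mem_filter.1 (mem_coe.1 hs)).2
        refine mem_coe.2 (mem_filter.2 ⟨mem_univ _, ?_⟩)
        simp only [Function.update_self, Function.update_of_ne (h1 p hp).symm]
        revert this; cases s p.1 <;> cases s p.2 <;> simp
      · intro s _; simp
      · intro s _; simp
    have := card_filter_add_card_filter_not (s := univ) fun s : W → Bool => s p.1 ≠ s p.2
    rw [card_univ] at this
    omega
  have tot : ∑ s : W → Bool, 2 * (Dd.filter fun p => s p.1 ≠ s p.2).card =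
      ∑ _s : W → Bool, Dd.card := by
    rw [← mul_sum, sum_const, card_univ, smul_eq_mul]
    simp only [card_filter]
    rw [sum_comm, mul_sum, mul_comm (Fintype.card _), ← smul_eq_mul, ← sum_const]
    refine sum_congr rfl fun p hp => ?_
    rw [← half p hp, card_filter]
  obtain ⟨s, -, hs⟩ := exists_le_of_sum_le univ_nonempty tot.ge
  refine ⟨s, hs.trans ?_⟩
  have : (Dd.filter fun p => s p.1 ≠ s p.2) ⊆
      (Dd.filter fun p => s p.1 = false ∧ s p.2 = true) ∪
        (Dd.filter fun p => s p.1 = false ∧ s p.2 = true).image Prod.swap := by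
    intro p hp
    obtain ⟨a, b⟩ := mem_filter.1 hp
    cases h : s p.1
    · refine mem_union_left _ (mem_filter.2 ⟨a, h, ?_⟩)
      rw [h] at b; simpa using b.symm
    · refine mem_union_right _ (mem_image.2 ⟨p.swap, mem_filter.2 ⟨h2 p a, ?_, h⟩, rfl⟩)
      rw [h] at b; simpa using b.symm
  have h3 := (card_le_card this).trans (card_union_le _ _)
  have h4 := card_image_le (s := Dd.filter fun p => s p.1 = false ∧ s p.2 = true)
    (f := Prod.swap)
  omega

def tl (f : W → ℕ) (p : W × W) : W := if f p.1 ≤ f p.2 then p.1 else p.2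

lemma orient [Fintype W] [DecidableEq W] (E : Finset (W × W)) (h1 : ∀ p ∈ E, p.1 ≠ p.2)
    (f g : W → ℕ) (hf : Function.Injective f)
    (h : ∀ w, (E.filter fun p => tl f p = w).card = (E.filter fun p => tl g p = w).card) :
    ∀ p ∈ E, (f p.1 ≤ f p.2 ↔ g p.1 ≤ g p.2) := by
  have key : ∀ k : W → ℕ, ∑ p ∈ E, f (tl k p) =
      ∑ w, (E.filter fun p => tl k p = w).card * f w := by
    intro k
    rw [← sum_fiberwise E (tl k)]
    refine sum_congr rfl fun w _ => ?_
    rw [sum_congr rfl fun p hp => congrArg f (mem_filter.1 hp).2, sum_const, smul_eq_mul]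
  have e : ∑ p ∈ E, f (tl f p) = ∑ p ∈ E, f (tl g p) := by
    rw [key, key]; exact sum_congr rfl fun w _ => by rw [h w]
  have le : ∀ p ∈ E, f (tl f p) ≤ f (tl g p) := by
    intro p _
    unfold tl
    split_ifs <;> omega
  intro p hp
  have e2 := hf ((sum_eq_sum_iff_of_le le).1 e p hp)
  have := h1 p hp
  unfold tl at e2
  split_ifs at e2 with a b b
  · exact iff_of_true a b
  · exact absurd e2 this
  · exact absurd e2.symm this
  · exact iff_of_false a b

lemma poly (k t : ℕ) : (t + 1) ^ k ≤ k.factorial * 2 ^ k * 2 ^ t := by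
  refine (Nat.pow_succ_le_ascFactorial (t + 1) k).trans ?_
  rw [Nat.ascFactorial_eq_factorial_mul_choose, mul_assoc, ← pow_add, add_comm k t]
  exact Nat.mul_le_mul_left _ (Nat.choose_le_two_pow _ _)

theorem count [Fintype W] [DecidableEq W] (d : ℕ) (E : Finset (W × W))
    (h1 : ∀ p ∈ E, p.1 ≠ p.2)
    (h : ∀ F ⊆ E, ∃ f : Fin d → W → ℕ, (∀ i, Function.Injective (f i)) ∧
      ∀ p ∈ E, (p ∈ F ↔ ∀ i, f i p.1 ≤ f i p.2)) :
    2 * E.card ≤ (4 * d).factorial * 2 ^ (4 * d) * Fintype.card W := by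
  choose f fi ff using fun F : E.powerset => h F.1 (mem_powerset.1 F.2)
  let deg : W → ℕ := fun w => (E.filter fun p => p.1 = w).card + (E.filter fun p => p.2 = w).card
  have lt : ∀ (k : W → ℕ) w, (E.filter fun p => tl k p = w).card < deg w + 1 := by
    intro k w
    refine Nat.lt_succ_of_le (le_trans (card_le_card ?_) (card_union_le _ _))
    intro p hp
    obtain ⟨a, b⟩ := mem_filter.1 hp
    unfold tl at b
    split_ifs at b
    · exact mem_union_left _ (mem_filter.2 ⟨a, b⟩)
    · exact mem_union_right _ (mem_filter.2 ⟨a, b⟩)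
  let code : E.powerset → Fin d → ∀ w, Fin (deg w + 1) := fun F i w => ⟨_, lt (f F i) w⟩
  have inj : Function.Injective code := by
    intro F F' e
    refine Subtype.ext (Finset.ext fun p => ?_)
    by_cases hp : p ∈ E
    · rw [ff F p hp, ff F' p hp]
      exact forall_congr' fun i => orient E h1 _ _ (fi F i)
        (fun w => congrArg Fin.val (congrFun (congrFun e i) w)) p hp
    · exact iff_of_false (fun a => hp (mem_powerset.1 F.2 a)) fun a => hp (mem_powerset.1 F'.2 a)
  have c1 := Fintype.card_le_of_injective _ inj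
  rw [Fintype.card_coe, card_powerset, Fintype.card_fun, Fintype.card_pi, Fintype.card_fin] at c1
  simp only [Fintype.card_fin] at c1
  have sd : ∑ w, deg w = 2 * E.card := by
    simp only [deg]
    rw [sum_add_distrib, ← card_eq_sum_card_fiberwise (f := Prod.fst)
      (fun _ _ => mem_coe.2 (mem_univ _)), ← card_eq_sum_card_fiberwise (f := Prod.snd)
      (fun _ _ => mem_coe.2 (mem_univ _))]
    omega
  set C := (4 * d).factorial * 2 ^ (4 * d) with hC
  have c2 : (2 ^ E.card) ^ 4 ≤ C ^ Fintype.card W * 2 ^ (2 * E.card) := by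
    refine (Nat.pow_le_pow_left c1 4).trans ?_
    rw [← pow_mul, ← prod_pow, ← sd, ← prod_pow_eq_pow_sum, ← card_univ, ← prod_const,
      ← prod_mul_distrib]
    refine prod_le_prod' fun w _ => ?_
    rw [mul_comm d 4]
    exact poly _ _
  have c3 : 2 ^ (2 * E.card) ≤ C ^ Fintype.card W := by
    have : (2 ^ E.card) ^ 4 = 2 ^ (2 * E.card) * 2 ^ (2 * E.card) := by
      rw [← pow_mul, ← pow_add]; congr 1; ring
    rw [this] at c2
    exact Nat.le_of_mul_le_mul_right c2 (by positivity)
  have c4 : C ^ Fintype.card W ≤ 2 ^ (C * Fintype.card W) := by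
    rw [pow_mul]
    exact Nat.pow_le_pow_left Nat.lt_two_pow_self.le _
  exact (Nat.pow_le_pow_iff_right (by norm_num)).1 (c3.trans c4)

theorem poset {r : ℕ} {H : SimpleGraph W} {G : SimpleGraph V} {B : W → Set V} {ctr : W → V}
    (m : Model r H G B ctr) (s : W → Bool) (F : Set (W × W))
    (hF : ∀ p ∈ F, H.Adj p.1 p.2 ∧ s p.1 = false ∧ s p.2 = true) :
    ∃ (arc : V → V → Prop) (ht : V → ℕ), (∀ x y, arc x y → G.Adj x y ∧ ht x < ht y) ∧
      (∀ x, ht x ≤ 2 * r + 1) ∧ ∀ a b, s a = false → s b = true →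
        ((a, b) ∈ F ↔ Relation.TransGen arc (ctr a) (ctr b)) := by
  classical
  have ex : ∀ w, ∀ x ∈ B w, ∃ t, Rch G (B w) t (ctr w) x := fun w x hx => ⟨r, m.rch w x hx⟩
  let ρ : ∀ w, ∀ x ∈ B w, ℕ := fun w x hx => Nat.find (ex w x hx)
  have ρle : ∀ w x hx, ρ w x hx ≤ r := fun w x hx => Nat.find_min' _ (m.rch w x hx)
  let ht : V → ℕ := fun x => if h : ∃ w, x ∈ B w then
    (if s h.choose then 2 * r + 1 - ρ _ x h.choose_spec else ρ _ x h.choose_spec) else 0
  have hte : ∀ w x (hx : x ∈ B w), ht x = if s w then 2 * r + 1 - ρ w x hx else ρ w x hx := by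
    intro w x hx
    have h : ∃ w, x ∈ B w := ⟨w, hx⟩
    have e : h.choose = w := m.dis _ _ x h.choose_spec hx
    simp only [ht, dif_pos h]
    have k : ∀ w' (h' : x ∈ B w'), w' = w →
        (if s w' then 2 * r + 1 - ρ w' x h' else ρ w' x h') =
          if s w then 2 * r + 1 - ρ w x hx else ρ w x hx := by
      intro w' h' e; subst e; rfl
    exact k _ h.choose_spec e
  let arc : V → V → Prop := fun x y => (G.Adj x y ∧ ht x < ht y) ∧
    ((∃ w, x ∈ B w ∧ y ∈ B w) ∨ ∃ p ∈ F, x ∈ B p.1 ∧ y ∈ B p.2)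
  have step : ∀ w t x (hx : x ∈ B w), ρ w x hx = t + 1 →
      ∃ y, ∃ hy : y ∈ B w, G.Adj y x ∧ ρ w y hy = t := by
    intro w t x hx e
    have h1 : Rch G (B w) (t + 1) (ctr w) x := e ▸ Nat.find_spec (ex w x hx)
    have h2 : ∀ j < t + 1, ¬ Rch G (B w) j (ctr w) x := fun j hj =>
      Nat.find_min (ex w x hx) (lt_of_lt_of_eq hj e.symm)
    obtain ⟨y, hy, a⟩ := h1.succ.resolve_left (h2 t (Nat.lt_succ_self t))
    refine ⟨y, hy.right_mem, a, le_antisymm (Nat.find_min' _ hy) ?_⟩
    by_contra hc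
    exact h2 (ρ w y hy.right_mem + 1) (by omega)
      ((Nat.find_spec (ex w y hy.right_mem)).trans (Rch.adj a hy.right_mem hx))
  have up : ∀ w, s w = false → ∀ t x (hx : x ∈ B w), ρ w x hx = t →
      Relation.ReflTransGen arc (ctr w) x := by
    intro w hw t
    induction t with
    | zero =>
      intro x hx e
      have h1 : Rch G (B w) 0 (ctr w) x := e ▸ Nat.find_spec (ex w x hx)
      rw [h1.zero]
    | succ t ih =>
      intro x hx e
      obtain ⟨y, hy, a, e'⟩ := step w t x hx e
      refine (ih y hy e').tail ⟨⟨a, ?_⟩, Or.inl ⟨w, hy, hx⟩⟩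
      rw [hte w x hx, hte w y hy, hw]
      simp only [Bool.false_eq_true, if_false]
      omega
  have dn : ∀ w, s w = true → ∀ t x (hx : x ∈ B w), ρ w x hx = t →
      Relation.ReflTransGen arc x (ctr w) := by
    intro w hw t
    induction t with
    | zero =>
      intro x hx e
      have h1 : Rch G (B w) 0 (ctr w) x := e ▸ Nat.find_spec (ex w x hx)
      rw [h1.zero]
    | succ t ih =>
      intro x hx e
      obtain ⟨y, hy, a, e'⟩ := step w t x hx e
      refine (ih y hy e').head ⟨⟨a.symm, ?_⟩, Or.inl ⟨w, hx, hy⟩⟩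
      have := ρle w x hx
      rw [hte w x hx, hte w y hy, hw]
      simp only [if_true]
      omega
  refine ⟨arc, ht, fun x y h => h.1, fun x => ?_, fun a b ha hb => ⟨fun h => ?_, fun h => ?_⟩⟩
  · by_cases h : ∃ w, x ∈ B w
    · obtain ⟨w, hw⟩ := h
      have := ρle w x hw
      rw [hte w x hw]
      split_ifs <;> omega
    · simp only [ht, dif_neg h]; omega
  · obtain ⟨x, hx, y, hy, e⟩ := m.adj a b (hF _ h).1
    refine Relation.TransGen.trans_left (Relation.TransGen.tail' (up a ha _ x hx rfl)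
      ⟨⟨e, ?_⟩, Or.inr ⟨(a, b), h, hx, hy⟩⟩) (dn b hb _ y hy rfl)
    have := ρle a x hx
    have := ρle b y hy
    rw [hte a x hx, hte b y hy, ha, hb]
    simp only [Bool.false_eq_true, if_false, if_true]
    omega
  · have inv : ∀ y, Relation.ReflTransGen arc (ctr a) y →
        y ∈ B a ∨ ∃ b', (a, b') ∈ F ∧ y ∈ B b' := by
      intro y hy
      induction hy with
      | refl => exact Or.inl (m.mem a)
      | tail _ e ih =>
        rcases e.2 with ⟨w, h1, h2⟩ | ⟨p, hp, h1, h2⟩ <;> rcases ih with ih | ⟨b', hb', ih⟩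
        · rw [m.dis _ _ _ ih h1]; exact Or.inl h2
        · rw [← m.dis _ _ _ ih h1] at h2; exact Or.inr ⟨b', hb', h2⟩
        · refine Or.inr ⟨p.2, ?_, h2⟩
          rw [m.dis _ _ _ ih h1]; exact hp
        · have e1 := (hF _ hb').2.2
          have e2 := (hF _ hp).2.1
          rw [← m.dis _ _ _ ih h1] at e2
          exact absurd (e1.symm.trans e2) (by simp)
    rcases inv _ h.to_reflTransGen with h1 | ⟨b', h1, h2⟩
    · rw [m.dis _ _ _ h1 (m.mem b), hb] at ha
      exact absurd ha (by simp)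
    · rwa [m.dis _ _ _ (m.mem b) h2]

end Pool.Agent.H.MP_35c2eb_co
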